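import Pool.Agent.H595.Dens.WFin
import Pool.Graph.R_seed8.Results.MP_48b3e2_nt.ZetaThreeExponentC

set_option autoImplicit false

/-!
# The density of the scales with near relations between `1`, `ζ(3)` and `P(ζ(3))`

For real numbers `ξ, t` and an exponent `w` we consider the scales `X` at which there is a near relation of exponent
`w` between `1, ξ, t`, that is, integers `a, b, c`, not all zero, of absolute value at most `X`, with
`|a + b ξ + c t| ≤ X ^ (-w)`. The lower logarithmic density of this set of scales is `1` if `1, ξ, t` are linearly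
dependent. Let `μ` be the irrationality exponent of `ξ`, which has to be finite, and `u > 1` the root of
`u ^ 2 = (μ - 1) (u + 1)`. We show that the density is at most

`law μ w = μ / w + max 0 ((2 μ - 1) / w - 1) / (u - 1)`

if `1, ξ, t` are linearly independent. This is less than `1` for `w > 1 + u`. For `w ≥ 2 μ - 1` we have
`law μ w = μ / w`, and this is the largest possible density, for EVERY `ξ`: there is a dense set of numbers `t` for
which it is the density, for all `w ≥ 2 μ - 1` at once.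

For `ξ = ζ(3)` we have `2 ≤ μ ≤ 4.68` (Apéry's theorem with a good measure). So for every `w > 5.4982` and every real
number `t` the numbers `1, ζ(3), t` are linearly dependent if and only if the density is larger than
`law 4.68 w < 1`, and then it is `1`. Application to `t = P(ζ(3))`: `ζ(3)` is transcendental if and only if for ALL
integer polynomials `P` of degree at least two the near relations `|a + b ζ(3) + c P(ζ(3))| ≤ X ^ (-w)` exist at a
set of scales of lower density at most `law 4.68 w`; the exponent `w` depends neither on `P` nor on its degree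
(an example is `P = x ^ k`, the near relations of the form `a + b x + c x ^ k`). And the irrationality exponent
of `ζ(3)` itself is `w` times the largest possible density, for each `w ≥ 8.36`.

Method. Let `v_i` be the relations which are minimal and of exponent `w` at their own scale, `X_i` their heights,
`L_i` their values. Elimination of `t` gives `L_i ≥ X_(i+1)^(-μ-ε) X_i^(1-μ-ε)`, and three independent relations give
`L_i ≥ X_(i+1)^(-1) X_(i+2)^(-1) / 6`; both remain true for the subsequence of the relations at which the plane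
spanned by two consecutive ones changes. The bound follows from these inequalities by a potential argument, in which
the two inequalities are weighted such that the sum telescopes. For the lower bounds `t` is constructed as a limit of
numbers with exact relations.
-/

namespace Pool.Agent.Results.MP_48b3e2_nt.DensityNearRelations

open Filter MeasureTheory Real Polynomial

/-- `ζ(3)` -/
noncomputable def zeta3 : ℝ := ∑' n : ℕ, 1 / ((n : ℝ) + 1) ^ 3

/-- a measure of irrationality with the exponent `μ` -/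
def Measure (x μ : ℝ) : Prop := ∃ c : ℝ, 0 < c ∧ ∀ p q : ℤ, 1 ≤ q → c / (q : ℝ) ^ μ ≤ |x - p / q|

/-- the irrationality exponent -/
noncomputable def irrExp (x : ℝ) : ℝ := sInf {μ : ℝ | Measure x μ}

/-- a near relation of exponent `w` at the scale `X` -/
def NearRelation (ξ t w X : ℝ) : Prop := ∃ a b c : ℤ, ¬ (a = 0 ∧ b = 0 ∧ c = 0) ∧
  |(a : ℝ)| ≤ X ∧ |(b : ℝ)| ≤ X ∧ |(c : ℝ)| ≤ X ∧ |a + b * ξ + c * t| ≤ X ^ (-w)

/-- the logarithms `x` of the scales with a near relation of exponent `w` -/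
def logScales (ξ t w : ℝ) : Set ℝ := {x | NearRelation ξ t w (exp x)}

/-- the lower density of a set of positive real numbers; for the set of the logarithms of the elements
of a set of scales it is the lower logarithmic density of the set of scales -/
noncomputable def lowerDensity (S : Set ℝ) : ℝ :=
  liminf (fun T : ℝ => (volume (S ∩ Set.Icc 0 T)).toReal / T) atTop

/-- the positive root of `u ^ 2 = (μ - 1) (u + 1)` -/
noncomputable def rate (μ : ℝ) : ℝ := (μ - 1 + √((μ - 1) * (μ + 3))) / 2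

/-- the bound for the density -/
noncomputable def law (μ w : ℝ) : ℝ := μ / w + max 0 ((2 * μ - 1) / w - 1) / (rate μ - 1)

theorem logScales_eq (ξ t w : ℝ) :
    logScales ξ t w = Pool.Agent.H595.Dens.nearScales (Pool.Agent.H595.Dens.th ξ t) w := by
  ext x
  constructor
  · rintro ⟨a, b, c, h0, ha, hb, hc, h⟩
    refine ⟨![a, b, c], ?_, ?_, ?_⟩
    · intro h1
      apply h0
      exact ⟨congrFun h1 0, congrFun h1 1, congrFun h1 2⟩
    · intro i
      fin_cases i
      · exact ha
      · exact hb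
      · exact hc
    · rw [Pool.Agent.H595.Dens.sum_th]
      exact h
  · rintro ⟨v, hv, h1, h2⟩
    rw [Pool.Agent.H595.Dens.sum_th] at h2
    refine ⟨v 0, v 1, v 2, ?_, h1 0, h1 1, h1 2, h2⟩
    rintro ⟨h3, h4, h5⟩
    apply hv
    funext i
    fin_cases i
    · exact h3
    · exact h4
    · exact h5

theorem rate_spec {μ : ℝ} (hμ : 2 ≤ μ) : rate μ ^ 2 = (μ - 1) * (rate μ + 1) ∧ 3 / 2 ≤ rate μ := by
  have h0 : 0 ≤ (μ - 1) * (μ + 3) := mul_nonneg (by linarith) (by linarith)
  have h1 := Real.sq_sqrt h0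
  have h2 : 2 ≤ √((μ - 1) * (μ + 3)) := by
    rw [show (2 : ℝ) = √(2 ^ 2) by rw [Real.sqrt_sq (by norm_num)]]
    apply Real.sqrt_le_sqrt
    nlinarith
  constructor
  · rw [rate]
    nlinarith
  · rw [rate]
    linarith

theorem law_high {μ w : ℝ} (hμ : 2 ≤ μ) (hw : 2 * μ - 1 ≤ w) : law μ w = μ / w := by
  have hw0 : 0 < w := by linarith
  rw [law, max_eq_left]
  · rw [zero_div, add_zero]
  · rw [sub_nonpos, div_le_one hw0]
    exact hw

theorem law_low {μ w : ℝ} (hw0 : 0 < w) (hw : w ≤ 2 * μ - 1) :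
    law μ w = μ / w + ((2 * μ - 1) / w - 1) / (rate μ - 1) := by
  rw [law, max_eq_right]
  rw [sub_nonneg, one_le_div hw0]
  exact hw

theorem law_lt_one {μ w : ℝ} (hμ : 2 ≤ μ) (hw : 1 + rate μ < w) : law μ w < 1 := by
  obtain ⟨h1, h2⟩ := rate_spec hμ
  have hr : μ - 1 < rate μ := by
    by_contra hcon
    rw [not_lt] at hcon
    have h3 := mul_le_mul_of_nonneg_right hcon (by linarith : 0 ≤ rate μ)
    nlinarith
  have hw0 : 0 < w := by linarith
  have hu1 : 0 < rate μ - 1 := by linarith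
  rcases le_total (2 * μ - 1) w with h3 | h3
  · rw [law_high hμ h3, div_lt_one hw0]
    linarith
  · rw [law_low hw0 h3]
    have e1 : μ / w + ((2 * μ - 1) / w - 1) / (rate μ - 1) =
        (μ * (rate μ - 1) + (2 * μ - 1) - w) / (w * (rate μ - 1)) := by
      field_simp
      ring
    rw [e1, div_lt_one (by positivity)]
    have h4 := mul_lt_mul_of_pos_right hw (by linarith : 0 < rate μ)
    nlinarith

theorem upper {ξ t w μ : ℝ} (hμ : 2 ≤ μ) (hξ : ∀ ε : ℝ, 0 < ε → Measure ξ (μ - 1 + 1 + ε))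
    (ht : LinearIndependent ℚ ![(1 : ℝ), ξ, t]) (hw : 2 < w) :
    lowerDensity (logScales ξ t w) ≤ law μ w := by
  have hlin : Pool.Agent.H595.Dens.LinW ξ (μ - 1) := Pool.Agent.H595.Dens.linW_of_meas (by linarith) hξ
  rw [Pool.Agent.H595.Dens.indep_iff] at ht
  obtain ⟨h1, h2⟩ := rate_spec hμ
  have hw0 : 0 < w := by linarith
  rw [logScales_eq]
  rcases le_or_gt w (2 * μ - 1) with h3 | h3
  · have h4 := Pool.Agent.H595.Dens.dens_lowW (W := μ - 1) (u := rate μ) (by linarith) hlin ht (by linarith)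
      (by rw [h1]; ring) hw (by linarith)
    refine h4.trans (le_of_eq ?_)
    rw [law_low hw0 h3]
    have hu1 : rate μ - 1 ≠ 0 := by
      have : 0 < rate μ - 1 := by linarith
      exact this.ne'
    field_simp
    ring
  · have h4 := Pool.Agent.H595.Dens.dens_highW (W := μ - 1) (by linarith) hlin ht (w := w) (by linarith)
    refine h4.trans (le_of_eq ?_)
    rw [law_high hμ h3.le]
    ring

theorem density_one {ξ t : ℝ} (h : ¬ LinearIndependent ℚ ![(1 : ℝ), ξ, t]) (w : ℝ) :
    lowerDensity (logScales ξ t w) = 1 := by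
  rw [Pool.Agent.H595.Dens.indep_iff] at h
  push Not at h
  obtain ⟨v, hv, h0⟩ := h
  rw [logScales_eq]
  exact Pool.Agent.H595.Dens.density_one hv h0 w

theorem sharp {ξ : ℝ} (h : ∃ μ, Measure ξ μ) {a b : ℝ} (hab : a < b) :
    ∃ t : ℝ, a < t ∧ t < b ∧ LinearIndependent ℚ ![(1 : ℝ), ξ, t] ∧
      ∀ w : ℝ, 2 * irrExp ξ - 1 ≤ w → lowerDensity (logScales ξ t w) = irrExp ξ / w := by
  obtain ⟨h1, -, h2, h3⟩ := Pool.Agent.H595.Dens.irrExp_spec (x := ξ) h
  obtain ⟨t, ht1, ht2, ht3, ht4⟩ := Pool.Agent.H595.Dens.exists_t_threeW (by linarith) h2 h3 hab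
  have hind : LinearIndependent ℚ ![(1 : ℝ), ξ, t] := (Pool.Agent.H595.Dens.indep_iff _ _).2 ht3
  refine ⟨t, ht1, ht2, hind, fun w hw => le_antisymm ?_ ?_⟩
  · have h1' : 2 ≤ irrExp ξ := h1
    rw [← law_high h1' hw]
    exact upper h1' h2 hind (by linarith)
  · have h1' : 2 ≤ irrExp ξ := h1
    rw [logScales_eq]
    have h4 := ht4 w (by
      have : Pool.Agent.H595.Dens.irrExp ξ = irrExp ξ := rfl
      rw [this]
      linarith)
    refine le_trans (le_of_eq ?_) h4
    have : Pool.Agent.H595.Dens.irrExp ξ = irrExp ξ := rfl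
    rw [this]
    ring

theorem measure_zeta3 : Measure zeta3 4.68 := by
  obtain ⟨c, hc, h⟩ := Pool.Agent.Results.MP_48b3e2_nt.ZetaThreeExponentC.result
  refine ⟨c, hc, fun p q hq => ?_⟩
  obtain ⟨m, hm⟩ : ∃ m : ℕ, (m : ℤ) = q := ⟨q.toNat, Int.toNat_of_nonneg (by omega)⟩
  have hmr : (m : ℝ) = q := by exact_mod_cast hm
  have h1 := h p m (by omega)
  rw [hmr] at h1
  have e : ((468 : ℝ) / 100) = 4.68 := by norm_num
  rw [e] at h1
  exact h1

theorem rate_four : 1 + rate 4.68 < 5.4982 := by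
  have h : √((4.68 - 1 : ℝ) * (4.68 + 3)) < 5.3164 := by
    rw [show (5.3164 : ℝ) = √(5.3164 ^ 2) by rw [Real.sqrt_sq (by norm_num)]]
    apply Real.sqrt_lt_sqrt (by norm_num)
    norm_num
  rw [rate]
  linarith

theorem zero_one (t w : ℝ) (hw : 5.4982 ≤ w) : law 4.68 w < 1 ∧
    (¬ LinearIndependent ℚ ![(1 : ℝ), zeta3, t] ↔ law 4.68 w < lowerDensity (logScales zeta3 t w)) ∧
    (¬ LinearIndependent ℚ ![(1 : ℝ), zeta3, t] ↔ lowerDensity (logScales zeta3 t w) = 1) := by
  have h1 : law 4.68 w < 1 := law_lt_one (by norm_num) (rate_four.trans_le hw)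
  have h2 : LinearIndependent ℚ ![(1 : ℝ), zeta3, t] → lowerDensity (logScales zeta3 t w) ≤ law 4.68 w :=
    fun h => upper (by norm_num) (fun ε hε =>
      (Pool.Agent.H595.Dens.Meas.mono measure_zeta3 (by linarith) : Pool.Agent.H595.Dens.Meas zeta3 _)) h (by linarith)
  refine ⟨h1, ⟨fun h => ?_, fun h h3 => ?_⟩, ⟨fun h => density_one h w, fun h h3 => ?_⟩⟩
  · rw [density_one h w]
    exact h1
  · exact absurd h (not_lt.2 (h2 h3))
  · have := h2 h3
    rw [h] at this
    linarith

/-- the linear relations between `1`, `x` and `P(x)` -/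
theorem indep_of_transcendental {x : ℝ} (hx : Transcendental ℚ x) {P : ℤ[X]} (hP : 2 ≤ P.natDegree) :
    LinearIndependent ℚ ![(1 : ℝ), x, aeval x P] := by
  rw [Pool.Agent.H595.Dens.indep_iff]
  intro v hv h0
  rw [Pool.Agent.H595.Dens.sum_th] at h0
  have hxZ : Transcendental ℤ x := fun h => hx (by
    exact h.extendScalars (R := ℤ) (S := ℚ) (fun a b hab => by exact_mod_cast hab))
  have h1 : C (v 0) + C (v 1) * X + C (v 2) * P = 0 := by
    by_contra hne
    apply hxZ
    refine ⟨_, hne, ?_⟩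
    simp only [map_add, map_mul, aeval_X, aeval_C]
    simpa using h0
  have h2 : v 2 = 0 := by
    have h3 := congrArg (fun Q : ℤ[X] => Q.coeff P.natDegree) h1
    simp only [coeff_add, coeff_C_mul, coeff_C, coeff_X, coeff_zero] at h3
    rw [if_neg (by omega), if_neg (by omega), mul_zero, zero_add, zero_add] at h3
    rcases mul_eq_zero.1 h3 with h | h
    · exact h
    · exfalso
      have h4 := leadingCoeff_eq_zero.1 h
      rw [h4] at hP
      simp at hP
  rw [h2, C_0, zero_mul, add_zero] at h1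
  have h3 : v 0 = 0 := by
    have := congrArg (fun Q : ℤ[X] => Q.coeff 0) h1
    simpa using this
  have h4 : v 1 = 0 := by
    have := congrArg (fun Q : ℤ[X] => Q.coeff 1) h1
    simpa [h3] using this
  apply hv
  funext i
  fin_cases i
  · exact h3
  · exact h4
  · exact h2

theorem exists_poly {x : ℝ} (halg : ¬ Transcendental ℚ x) :
    ∃ P : ℤ[X], 2 ≤ P.natDegree ∧ aeval x P = 0 := by
  rw [Transcendental, not_not] at halg
  have h1 : IsAlgebraic ℤ x := (IsFractionRing.isAlgebraic_iff ℤ ℚ ℝ).2 halg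
  obtain ⟨P, hP, h0⟩ := h1
  refine ⟨P * X ^ 2, ?_, ?_⟩
  · rw [natDegree_mul hP (pow_ne_zero 2 X_ne_zero), natDegree_X_pow]
    omega
  · rw [map_mul, h0, zero_mul]

theorem result :
    -- (1) the irrationality exponent of `ζ(3)`
    (2 ≤ irrExp zeta3 ∧ irrExp zeta3 ≤ 4.68) ∧
    -- (2) the zero-one law for the near relations between `1`, `ζ(3)` and an arbitrary real number `t`
    (∀ t w : ℝ, 5.4982 ≤ w → law 4.68 w < 1 ∧
      (¬ LinearIndependent ℚ ![(1 : ℝ), zeta3, t] ↔ law 4.68 w < lowerDensity (logScales zeta3 t w)) ∧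
      (¬ LinearIndependent ℚ ![(1 : ℝ), zeta3, t] ↔ lowerDensity (logScales zeta3 t w) = 1)) ∧
    -- (3) the transcendence of `ζ(3)`
    (∀ w : ℝ, 5.4982 ≤ w → (Transcendental ℚ zeta3 ↔ ∀ P : ℤ[X], 2 ≤ P.natDegree →
      lowerDensity (logScales zeta3 (aeval zeta3 P) w) ≤ law 4.68 w)) ∧
    (∀ (P : ℤ[X]) (w : ℝ), 5.4982 ≤ w →
      ((∃ a b c : ℤ, ¬ (a = 0 ∧ b = 0 ∧ c = 0) ∧ a + b * zeta3 + c * aeval zeta3 P = 0) ↔
        law 4.68 w < lowerDensity (logScales zeta3 (aeval zeta3 P) w))) ∧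
    -- (4) the largest possible density
    (∀ a b : ℝ, a < b → ∃ t : ℝ, a < t ∧ t < b ∧ LinearIndependent ℚ ![(1 : ℝ), zeta3, t] ∧
      ∀ w : ℝ, 2 * irrExp zeta3 - 1 ≤ w → lowerDensity (logScales zeta3 t w) = irrExp zeta3 / w) ∧
    (∀ w : ℝ, 2 * irrExp zeta3 - 1 ≤ w → IsGreatest {d : ℝ | ∃ t : ℝ, LinearIndependent ℚ ![(1 : ℝ), zeta3, t] ∧
      lowerDensity (logScales zeta3 t w) = d} (irrExp zeta3 / w)) ∧
    -- (5) all numbers of finite irrationality exponent
    (∀ ξ : ℝ, (∃ μ, Measure ξ μ) → 2 ≤ irrExp ξ ∧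
      (∀ t : ℝ, LinearIndependent ℚ ![(1 : ℝ), ξ, t] → ∀ w : ℝ, 2 < w →
        lowerDensity (logScales ξ t w) ≤ law (irrExp ξ) w) ∧
      (∀ t : ℝ, ¬ LinearIndependent ℚ ![(1 : ℝ), ξ, t] → ∀ w : ℝ, lowerDensity (logScales ξ t w) = 1) ∧
      (∀ a b : ℝ, a < b → ∃ t : ℝ, a < t ∧ t < b ∧ LinearIndependent ℚ ![(1 : ℝ), ξ, t] ∧
        ∀ w : ℝ, 2 * irrExp ξ - 1 ≤ w → lowerDensity (logScales ξ t w) = law (irrExp ξ) w)) ∧
    -- (6) the values of the bound
    ((∀ μ w : ℝ, 2 ≤ μ → 1 + rate μ < w → law μ w < 1) ∧ (∀ μ w : ℝ, 2 ≤ μ → 2 * μ - 1 ≤ w → law μ w = μ / w)) := by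
  have hz : ∃ μ, Measure zeta3 μ := ⟨4.68, measure_zeta3⟩
  have key : ∀ ξ : ℝ, (∃ μ, Measure ξ μ) → 2 ≤ irrExp ξ ∧ (∀ t : ℝ, LinearIndependent ℚ ![(1 : ℝ), ξ, t] →
      ∀ w : ℝ, 2 < w → lowerDensity (logScales ξ t w) ≤ law (irrExp ξ) w) := by
    intro ξ hξ
    obtain ⟨h1, -, h2, h3⟩ := Pool.Agent.H595.Dens.irrExp_spec (x := ξ) hξ
    exact ⟨h1, fun t ht w hw => upper h1 h2 ht hw⟩
  refine ⟨⟨(key _ hz).1, ?_⟩, fun t w hw => zero_one t w hw, fun w hw => ⟨fun h P hP => ?_, fun h => ?_⟩,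
    fun P w hw => ?_, fun a b hab => sharp hz hab, fun w hw => ?_, fun ξ hξ => ⟨(key ξ hξ).1, (key ξ hξ).2,
      fun t ht w => density_one ht w, fun a b hab => ?_⟩, fun μ w h1 h2 => law_lt_one h1 h2,
      fun μ w h1 h2 => law_high h1 h2⟩
  · obtain ⟨-, h1, -⟩ := Pool.Agent.H595.Dens.irrExp_spec (x := zeta3) hz
    exact h1 _ measure_zeta3
  · have h1 := (zero_one (aeval zeta3 P) w hw).2.1
    by_contra hcon
    rw [not_le] at hcon
    exact h1.2 hcon (indep_of_transcendental h hP)
  · by_contra hcon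
    obtain ⟨P, hP, h0⟩ := exists_poly hcon
    have h1 := h P hP
    rw [h0, density_one (fun hind => by
      rw [Pool.Agent.H595.Dens.indep_iff] at hind
      refine hind ![0, 0, 1] (fun h2 => by simpa using congrFun h2 2) ?_
      rw [Pool.Agent.H595.Dens.sum_th]
      simp) w] at h1
    have := (zero_one 0 w hw).1
    linarith
  · rw [← (zero_one (aeval zeta3 P) w hw).2.1, Pool.Agent.H595.Dens.indep_iff]
    push Not
    constructor
    · rintro ⟨a, b, c, h1, h2⟩
      refine ⟨![a, b, c], fun h3 => ?_, ?_⟩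
      · have g0 := congrFun h3 0
        have g1 := congrFun h3 1
        have g2 := congrFun h3 2
        simp at g0 g1 g2
        exact h1 g0 g1 g2
      · rw [Pool.Agent.H595.Dens.sum_th]
        exact h2
    · rintro ⟨v, hv, h0⟩
      rw [Pool.Agent.H595.Dens.sum_th] at h0
      refine ⟨v 0, v 1, v 2, fun h1 h2 h3 => hv ?_, h0⟩
      funext i
      fin_cases i
      · exact h1
      · exact h2
      · exact h3
  · constructor
    · obtain ⟨t, -, -, h1, h2⟩ := sharp hz (show (0 : ℝ) < 1 by norm_num)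
      exact ⟨t, h1, h2 w hw⟩
    · rintro d ⟨t, ht, rfl⟩
      have h1 := (key _ hz).1
      rw [← law_high h1 hw]
      exact (key _ hz).2 t ht w (by linarith)
  · obtain ⟨t, h1, h2, h3, h4⟩ := sharp hξ hab
    refine ⟨t, h1, h2, h3, fun w hw => ?_⟩
    rw [h4 w hw, law_high (key ξ hξ).1 hw]

end Pool.Agent.Results.MP_48b3e2_nt.DensityNearRelations
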