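import Pool.Agent.H595.GT.GT3
import Pool.Agent.H595.AD.AD5

set_option autoImplicit false

/-!
# Zero-one laws for the scales of transcendence criteria, and `ζ(3)`

**Degree and height growing together.** Gelfond's criterion says that a complex number `θ` is algebraic if at all large
scales `T` there is a nonzero integer polynomial of degree at most `T`, with coefficients at most `exp T`, whose value
at `θ` is at most `exp (-T ^ w)` in absolute value, where `w > 2`. Which part of the scales is needed? We show that `θ`
is algebraic already if the lower logarithmic density of the set of these scales is larger than `1 / (w - 1)`. This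
holds for all complex numbers `θ` and all `w > 2`, so that the density is either equal to one, for algebraic `θ`, or at
most `1 / (w - 1)`, for transcendental `θ`. The bound is best possible for all `w` simultaneously: in every interval
there is a real transcendental number for which the density is equal to `1 / (w - 1)` for all `w > 2` (and equal to one
for `w = 2`).

**Fixed degree.** Let `t` be a real number and `n ≥ 1`. If `t` is not algebraic of degree at most `n`, then for
`w > 2 n` there are arbitrarily large scales `X` at which no algebraic number `α` of degree at most `n` and of height at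
most `X` satisfies `|t - α| ≤ X ^ (-w)`; this follows from Liouville's inequality for the distance of two algebraic
numbers. How large is the set of these scales? We show that the lower logarithmic density of the set of the scales `X`
at which there is such an `α` is at most `n / w` for every real number `t` which is not algebraic of degree at most `n`;
so it is either equal to one or at most `n / w < 1 / 2`. The bound `n / w` is best possible, for all `w > 2 n`
simultaneously: for each `n` there is in every interval a transcendental number `t` for which the density is equal to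
`n / w` for all `w > 2 n`.

For `ζ(3)` both laws give criteria for the transcendence of `ζ(3)` which use much less than all scales.

Method. (1) The size of a polynomial is the sum of its degree and the logarithm of its Mahler measure; this is additive.
Therefore one of the irreducible factors of a polynomial with a small value has a value which is small in comparison
with its size. Two irreducible polynomials of sizes `s < s'` can not both have values below `exp (-C s s' log s')`, by
the resultant. The upper bound follows by an argument on the growth of the partial sums along the sequence of the best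
irreducible polynomials. For the examples one takes the limit of a quickly converging sequence of rational numbers
`p / q`, and the powers of the polynomials `q X - p`. (2) By Liouville's inequality two consecutive best approximations
of `t` by algebraic numbers of degree at most `n`, of heights `H < H'`, have a distance of at least `c (H H') ^ (-n)`,
and an argument on partial sums along the sequence of the best approximations gives the factor `n / w`. The examples:
`t` is the limit of a sequence of algebraic numbers of degree exactly `n`, each of which is a root of an Eisenstein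
polynomial `k A + B`, `A` the polynomial of the preceding one, for a very large integer `k`. It is at the distance
`k ^ (-n)` of the preceding one, up to constants, the smallest possible distance; for this `B` has to take a value of
the size `k ^ (1 - n)` at it (Dirichlet's box principle).
-/

namespace Pool.Agent.Results.MP_48b3e2_nt.DensityTranscendenceLaws

open Filter MeasureTheory Real Polynomial

/-- at the scale `T` there is a nonzero integer polynomial of degree at most `T`, with coefficients of absolute value
at most `exp T`, and with a value at `θ` of absolute value at most `exp (-T ^ w)` -/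
def SmallValue (θ : ℂ) (w T : ℝ) : Prop :=
  ∃ P : ℤ[X], P ≠ 0 ∧ (P.natDegree : ℝ) ≤ T ∧ (∀ i, |(P.coeff i : ℝ)| ≤ exp T) ∧ ‖aeval θ P‖ ≤ exp (-T ^ w)

/-- the logarithms `y` of the scales `T = exp y` with this property -/
def smallScales (θ : ℂ) (w : ℝ) : Set ℝ := {y | SmallValue θ w (exp y)}

/-- at the scale `X` the real number `t` is near an algebraic number `α` of degree at most `n`: there is a root `α` of
an irreducible integer polynomial of degree at most `n` with coefficients of absolute value at most `X`, such that
`|t - α| ≤ X ^ (-w)` -/
def NearAlgebraic (n : ℕ) (t w X : ℝ) : Prop :=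
  ∃ (α : ℂ) (P : ℤ[X]), Irreducible P ∧ P.natDegree ≤ n ∧ (∀ i, |(P.coeff i : ℝ)| ≤ X) ∧ aeval α P = 0 ∧
    ‖(t : ℂ) - α‖ ≤ X ^ (-w)

/-- the logarithms `x` of the scales `X = exp x` with this property -/
def nearScales (n : ℕ) (t w : ℝ) : Set ℝ := {x | NearAlgebraic n t w (exp x)}

/-- the lower density of a set of positive real numbers; for the set of the logarithms of the elements
of a set of scales it is the lower logarithmic density of the set of scales -/
noncomputable def lowerDensity (S : Set ℝ) : ℝ :=
  liminf (fun T : ℝ => (volume (S ∩ Set.Icc 0 T)).toReal / T) atTop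

/-- `t` is algebraic of degree at most `n` -/
def AlgebraicOfDegree (n : ℕ) (t : ℝ) : Prop := ∃ P : ℤ[X], P ≠ 0 ∧ P.natDegree ≤ n ∧ aeval t P = 0

/-- `ζ(3)` -/
noncomputable def zeta3 : ℝ := ∑' n : ℕ, (1 : ℝ) / ((n : ℝ) + 1) ^ 3

theorem tr_iff' (θ : ℂ) : Transcendental ℚ θ ↔ Pool.Agent.H595.GT.Tr θ := by
  rw [Transcendental, ← IsFractionRing.isAlgebraic_iff ℤ ℚ ℂ, IsAlgebraic, Pool.Agent.H595.GT.Tr]
  push Not
  rfl

theorem upper' {θ : ℂ} {w : ℝ} (hw : 2 < w) (h : Transcendental ℚ θ) :
    lowerDensity (smallScales θ w) ≤ 1 / (w - 1) := Pool.Agent.H595.GT.upper ((tr_iff' θ).1 h) hw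

theorem alg_one {θ : ℂ} (w : ℝ) (h : IsAlgebraic ℚ θ) : lowerDensity (smallScales θ w) = 1 :=
  Pool.Agent.H595.GT.alg_one (fun h1 => (tr_iff' θ).2 h1 h) w

theorem law_lt_one' {w : ℝ} (hw : 2 < w) : 1 / (w - 1) < 1 := by
  rw [div_lt_one (by linarith)]
  linarith

theorem criterion' (θ : ℂ) {w : ℝ} (hw : 2 < w) :
    (lowerDensity (smallScales θ w) ≤ 1 / (w - 1) ↔ Transcendental ℚ θ) ∧
      (lowerDensity (smallScales θ w) = 1 ↔ IsAlgebraic ℚ θ) := by
  have h0 := law_lt_one' hw
  constructor
  · constructor
    · intro h1 h2
      rw [alg_one w h2] at h1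
      linarith
    · exact upper' hw
  · constructor
    · intro h1
      by_contra h2
      have h3 := upper' hw h2
      linarith
    · exact alg_one w

theorem notAlg_iff (n : ℕ) (t : ℝ) : ¬ AlgebraicOfDegree n t ↔ Pool.Agent.H595.Alg.NotAlg n t := by
  rw [AlgebraicOfDegree, Pool.Agent.H595.Alg.NotAlg]
  push Not
  rfl

theorem tr_iff (t : ℝ) : Transcendental ℚ t ↔ ∀ n, ¬ AlgebraicOfDegree n t := by
  rw [Transcendental, ← IsFractionRing.isAlgebraic_iff ℤ ℚ ℝ, IsAlgebraic]
  constructor
  · rintro h n ⟨P, h1, -, h2⟩
    exact h ⟨P, h1, h2⟩
  · rintro h ⟨P, h1, h2⟩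
    exact h P.natDegree ⟨P, h1, le_rfl, h2⟩

theorem upper {n : ℕ} {t w : ℝ} (hn : 1 ≤ n) (hw : 2 * (n : ℝ) < w) (h : ¬ AlgebraicOfDegree n t) :
    lowerDensity (nearScales n t w) ≤ n / w := Pool.Agent.H595.AD.upper hn ((notAlg_iff n t).1 h) hw

theorem one {n : ℕ} {t : ℝ} (w : ℝ) (h : AlgebraicOfDegree n t) : lowerDensity (nearScales n t w) = 1 :=
  Pool.Agent.H595.AD.one (fun h1 => (notAlg_iff n t).2 h1 h) w

theorem law_lt_one {n : ℕ} {w : ℝ} (hn : 1 ≤ n) (hw : 2 * (n : ℝ) < w) : (n : ℝ) / w < 1 := by
  have hn' : (1 : ℝ) ≤ n := by exact_mod_cast hn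
  rw [div_lt_one (by linarith)]
  linarith

theorem criterion {n : ℕ} (t : ℝ) {w : ℝ} (hn : 1 ≤ n) (hw : 2 * (n : ℝ) < w) :
    (lowerDensity (nearScales n t w) ≤ n / w ↔ ¬ AlgebraicOfDegree n t) ∧
      (lowerDensity (nearScales n t w) = 1 ↔ AlgebraicOfDegree n t) := by
  have h0 := law_lt_one hn hw
  constructor
  · constructor
    · intro h1 h2
      rw [one w h2] at h1
      linarith
    · exact upper hn hw
  · constructor
    · intro h1
      by_contra h2
      have h3 := upper hn hw h2
      linarith
    · exact one w

/-- **Theorem.** (1) Let `w > 2`. For all complex numbers `θ` the lower logarithmic density of the scales `T` at which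
there is a nonzero integer polynomial of degree at most `T`, with coefficients at most `exp T`, and with a value at `θ`
of at most `exp (-T ^ w)` is at most `1 / (w - 1)`, which is less than one, if and only if `θ` is transcendental, and
equal to one if and only if `θ` is algebraic. In every interval there is a real transcendental number `t` for which
the density is equal to `1 / (w - 1)` for all `w > 2`, and at least `1 / (w - 1)` for all `w ≥ 2`.

(2) Let `n ≥ 1`, `w > 2 n` and let `t` be a real number. The lower logarithmic density of the scales `X`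
at which there is an algebraic number `α` of degree at most `n` and height at most `X` with `|t - α| ≤ X ^ (-w)` is at
most `n / w` if and only if `t` is not algebraic of degree at most `n`, and it is `1` if and only if `t` is algebraic of
degree at most `n`. For all `n ≥ 1` and all `a < b` there is a transcendental number `t` in `(a, b)` for which this
density is equal to `n / w` for all `w > 2 n`, and at least `n / w` for all `w ≥ n`.

(3) The number `ζ(3)` is transcendental if and only if for some `w > 2` the density in (1) for `θ = ζ(3)` is less than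
one, if and only if for every `n ≥ 1` there is a `w > 2 n` such that for `t = ζ(3)` the density in (2) is less than
one. -/
theorem result :
    -- (1) degree and height growing together
    ((∀ (θ : ℂ) (w : ℝ), 2 < w → 1 / (w - 1) < 1 ∧
      (lowerDensity (smallScales θ w) ≤ 1 / (w - 1) ↔ Transcendental ℚ θ) ∧
      (lowerDensity (smallScales θ w) = 1 ↔ IsAlgebraic ℚ θ)) ∧
    (∀ a b : ℝ, a < b → ∃ t : ℝ, a < t ∧ t < b ∧ Transcendental ℚ t ∧
      (∀ w : ℝ, 2 < w → lowerDensity (smallScales t w) = 1 / (w - 1)) ∧
      (∀ w : ℝ, 2 ≤ w → 1 / (w - 1) ≤ lowerDensity (smallScales t w)))) ∧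
    -- (2) fixed degree
    ((∀ (n : ℕ) (t w : ℝ), 1 ≤ n → 2 * (n : ℝ) < w →
      (lowerDensity (nearScales n t w) ≤ n / w ↔ ¬ AlgebraicOfDegree n t) ∧
      (lowerDensity (nearScales n t w) = 1 ↔ AlgebraicOfDegree n t)) ∧
    (∀ (n : ℕ) (a b : ℝ), 1 ≤ n → a < b → ∃ t : ℝ, a < t ∧ t < b ∧ Transcendental ℚ t ∧
      (∀ w : ℝ, 2 * (n : ℝ) < w → lowerDensity (nearScales n t w) = n / w) ∧
      ∀ w : ℝ, (n : ℝ) ≤ w → n / w ≤ lowerDensity (nearScales n t w))) ∧
    -- (3) `ζ(3)`
    ((Transcendental ℚ zeta3 ↔ ∃ w : ℝ, 2 < w ∧ lowerDensity (smallScales zeta3 w) < 1) ∧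
    (Transcendental ℚ zeta3 ↔ ∀ n : ℕ, 1 ≤ n → ∃ w : ℝ, 2 * (n : ℝ) < w ∧
      lowerDensity (nearScales n zeta3 w) < 1)) := by
  have hcast : ∀ t : ℝ, Transcendental ℚ t ↔ Transcendental ℚ (t : ℂ) := by
    intro t
    exact (transcendental_algebraMap_iff (R := ℚ) (S := ℝ) (A := ℂ) (FaithfulSMul.algebraMap_injective ℝ ℂ)).symm
  refine ⟨⟨fun θ w hw => ⟨law_lt_one' hw, criterion' θ hw⟩, fun a b hab => ?_⟩,
    ⟨fun n t w hn hw => criterion t hn hw, fun n a b hn hab => ?_⟩, ?_, ?_⟩
  · obtain ⟨t, h1, h2, h3, h4⟩ := Pool.Agent.H595.GT.exists_tr hab
    have h5 : Transcendental ℚ t := by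
      rw [Transcendental, ← IsFractionRing.isAlgebraic_iff ℤ ℚ ℝ]
      exact h3
    exact ⟨t, h1, h2, h5, fun w hw => le_antisymm (upper' hw ((hcast t).1 h5)) (h4 w hw.le), h4⟩
  · obtain ⟨t, h1, h2, h3, h4⟩ := Pool.Agent.H595.AD.exists_t hn hab
    have ht : ∀ D, ¬ AlgebraicOfDegree D t := fun D => (notAlg_iff D t).2 (h3 D)
    refine ⟨t, h1, h2, (tr_iff t).2 ht, fun w hw => ?_, h4⟩
    have hn' : (0 : ℝ) ≤ n := Nat.cast_nonneg n
    exact le_antisymm (upper hn hw (ht n)) (h4 w (by linarith))
  · rw [hcast]
    constructor
    · intro h
      exact ⟨3, by norm_num, lt_of_le_of_lt (upper' (by norm_num) h) (law_lt_one' (by norm_num))⟩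
    · rintro ⟨w, -, h⟩ h2
      rw [alg_one w h2] at h
      exact lt_irrefl _ h
  · rw [tr_iff]
    constructor
    · intro h n hn
      exact ⟨2 * n + 1, by linarith, (upper hn (by linarith) (h n)).trans_lt (law_lt_one hn (by linarith))⟩
    · intro h n hn
      have hn2 : AlgebraicOfDegree (max n 1) zeta3 := by
        obtain ⟨P, h1, h2, h3⟩ := hn
        exact ⟨P, h1, h2.trans (le_max_left _ _), h3⟩
      obtain ⟨w, -, h1⟩ := h (max n 1) (le_max_right _ _)
      rw [one w hn2] at h1
      exact lt_irrefl _ h1

end Pool.Agent.Results.MP_48b3e2_nt.DensityTranscendenceLaws
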