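import Pool.Agent.H608.Ge.Euler
import Pool.Agent.H608.Ge.Primes
import Pool.Agent.H608.Ge.Jn
import Mathlib

/-!
# The Riemann zeta function without very few Euler factors

For a set `E` of primes let `ζ_E(s)` be the sum of `1 / n ^ s` over the positive integers without prime factors in
`E`, that is, the Riemann zeta function without its Euler factors at the primes of `E`. There are sets `E` with
at most `C log log log K` elements up to `K` such that the numbers `ζ_E(2), ζ_E(3), ζ_E(4), …` are algebraically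
independent over any given countable ring of real numbers (so `ζ_E(3)` is transcendental), and such that all
nonconstant polynomials in these numbers, and all nonconstant values of given entire functions at the logarithms of
these numbers, are normal in every integer base, even jointly.
-/

set_option autoImplicit false

namespace Pool.Agent.Results.MP_48b3e2_nt.FewEulerFactors

open Finset Filter Topology Metric
open Pool.Agent.H608.Sp Pool.Agent.H608.Ge

/-- the digit of `x` in base `b` at position `i` after the point -/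
noncomputable def digit (b : ℕ) (x : ℝ) (i : ℕ) : ℤ := ⌊x * (b : ℝ) ^ i⌋ % (b : ℤ)

open Classical in
/-- the tuple `x` is jointly normal in base `b`: every digit matrix with `n` rows and `m` columns
occurs along the positions with limiting frequency `b ^ (-(m * n))` -/
def JointlyNormal (b : ℕ) {n : ℕ} (x : Fin n → ℝ) : Prop :=
  ∀ m : ℕ, 1 ≤ m → ∀ D : Fin n → Fin m → Fin b,
    Tendsto (fun N : ℕ => (((Icc 1 N).filter fun i : ℕ =>
      ∀ (j : Fin n) (t : Fin m), digit b (x j) (i + (t : ℕ)) = ((D j t : ℕ) : ℤ)).card : ℝ) / (N : ℝ))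
      atTop (𝓝 (1 / (b : ℝ) ^ (m * n)))

/-- `A` has at least `H exp (- (log H) ^ (2 / 5))` elements in `[H, 2 H)`, for all large `H` -/
def NotTooSparse (A : Set ℕ) : Prop :=
  ∀ᶠ H : ℕ in atTop, H * Real.exp (-(Real.log H) ^ (2 / 5 : ℝ)) ≤
    (({k : ℕ | k ∈ A ∧ H ≤ k ∧ k < 2 * H}.ncard : ℕ) : ℝ)

open Classical in
/-- the sum of `1 / n ^ s` over the positive integers without prime factors in `E` -/
noncomputable def zetaE (E : Set ℕ) (s : ℕ) : ℝ := ∑' n : ℕ, if ∃ p ∈ E, p ∣ n then 0 else 1 / (n : ℝ) ^ s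

lemma jn_of_nt (b : ℕ) {n : ℕ} (x : Fin n → ℝ) (h : Pool.Agent.W206.ND.NT b x) :
    JointlyNormal b x := by
  intro m hm D
  have h1 := h m hm D
  refine h1.congr fun N => ?_
  congr 2

lemma zetaE_empty {s : ℕ} (hs : 2 ≤ s) : ((zetaE ∅ s : ℝ) : ℂ) = riemannZeta s := by
  rw [zeta_nat_eq_tsum_of_gt_one (by omega)]
  unfold zetaE
  rw [Complex.ofReal_tsum]
  apply tsum_congr
  intro n
  simp

open Classical in
lemma zetaE_prod {E : Set ℕ} (hE : ∀ p ∈ E, p.Prime) {s : ℕ} (hs : 2 ≤ s) :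
    HasProd (fun p : Nat.Primes => if (p : ℕ) ∈ E then 1 else (1 - 1 / ((p : ℕ) : ℝ) ^ s)⁻¹) (zetaE E s) := by
  have hs0 : s ≠ 0 := by omega
  have h1 : Summable fun n => ‖fE E hE s hs0 n‖ := by
    refine Summable.of_nonneg_of_le (fun _ => norm_nonneg _) (fun n => ?_)
      (Real.summable_one_div_nat_pow.2 (by omega : 1 < s))
    show ‖if ∃ p ∈ E, p ∣ n then 0 else 1 / (n : ℝ) ^ s‖ ≤ _
    split_ifs
    · rw [norm_zero]
      positivity
    · rw [Real.norm_of_nonneg (by positivity)]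
  have h2 := EulerProduct.eulerProduct_completely_multiplicative_hasProd h1
  have h3 : (fun p : Nat.Primes => if (p : ℕ) ∈ E then 1 else (1 - 1 / ((p : ℕ) : ℝ) ^ s)⁻¹) =
      fun p : Nat.Primes => (1 - fE E hE s hs0 p)⁻¹ := funext fun p => by
    have h7 : (∃ q ∈ E, q ∣ (p : ℕ)) ↔ (p : ℕ) ∈ E := by
      constructor
      · rintro ⟨q, hq, h⟩
        rwa [← (Nat.prime_dvd_prime_iff_eq (hE q hq) p.2).1 h]
      · exact fun h => ⟨p, h, dvd_rfl⟩
    have h8 : fE E hE s hs0 (p : ℕ) = if (p : ℕ) ∈ E then 0 else 1 / ((p : ℕ) : ℝ) ^ s := by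
      show (if ∃ q ∈ E, q ∣ (p : ℕ) then 0 else 1 / ((p : ℕ) : ℝ) ^ s) = _
      by_cases h9 : (p : ℕ) ∈ E
      · rw [if_pos (h7.2 h9), if_pos h9]
      · rw [if_neg fun h => h9 (h7.1 h), if_neg h9]
    rw [h8]
    split_ifs
    · rw [sub_zero, inv_one]
    · rfl
  rw [h3]
  exact h2

open Classical in
theorem result :
    -- `ζ_E` is Riemann's zeta function without the Euler factors at the primes of `E`
    (∀ s : ℕ, 2 ≤ s → ((zetaE ∅ s : ℝ) : ℂ) = riemannZeta s) ∧
    (∀ E : Set ℕ, (∀ p ∈ E, p.Prime) → ∀ s : ℕ, 2 ≤ s →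
      HasProd (fun p : Nat.Primes => if (p : ℕ) ∈ E then 1 else (1 - 1 / ((p : ℕ) : ℝ) ^ s)⁻¹) (zetaE E s)) ∧
    -- the set of all primes is an admissible set `A`
    NotTooSparse {p : ℕ | p.Prime} ∧
    ∃ C : ℝ, 0 < C ∧ ∀ A : Set ℕ, (∀ p ∈ A, p.Prime) → NotTooSparse A →
      ∀ (M : ℕ) (R : Subring ℝ), Countable R →
      ∀ 𝓕 : ∀ t : ℕ, Set ((Fin t → ℂ) → ℂ), (∀ t, (𝓕 t).Countable) →
      (∀ t, ∀ f ∈ 𝓕 t, AnalyticOnNhd ℂ f Set.univ ∧ ∀ a : Fin t → ℝ, (f fun i => (a i : ℂ)).im = 0) →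
      ∃ E : Set ℕ, E ⊆ A ∧ (∀ p ∈ E, M ≤ p) ∧
        (∀ K : ℕ, 16 ≤ K → (({p : ℕ | p ∈ E ∧ p ≤ K}.ncard : ℕ) : ℝ) ≤
          C * Real.log (Real.log (Real.log K))) ∧
        AlgebraicIndependent R (fun j : ℕ => zetaE E (j + 2)) ∧
        -- polynomials in the zeta values
        (∀ (n : ℕ) (P : Fin n → MvPolynomial ℕ R),
          (∀ v : Fin n → ℤ, v ≠ 0 → ∀ c, ∑ j, v j • P j ≠ MvPolynomial.C c) →
          ∀ b : ℕ, 2 ≤ b → JointlyNormal b fun j => MvPolynomial.aeval (fun j : ℕ => zetaE E (j + 2)) (P j)) ∧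
        -- entire functions of their logarithms
        ∀ (t n : ℕ) (f : Fin n → (Fin t → ℂ) → ℂ), (∀ j, f j ∈ 𝓕 t) →
          (∀ v : Fin n → ℤ, v ≠ 0 → ¬ ∃ c : ℂ, ∀ w, ∑ j, (v j : ℂ) * f j w = c) →
          ∀ b : ℕ, 2 ≤ b →
            JointlyNormal b fun j => (f j fun i => ((Real.log (zetaE E ((i : ℕ) + 2)) : ℝ) : ℂ)).re := by
  refine ⟨fun s hs => zetaE_empty hs, fun E hE s hs => zetaE_prod hE hs, primes_rich, ?_⟩
  obtain ⟨C, hC, hmain⟩ := linAll
  refine ⟨C, hC, fun A hAp hA M R hR 𝓕 hF hF' => ?_⟩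
  have := fun t => countable_mvN (n := t) R
  obtain ⟨E, z, _, hEA, hEK, hl, _, hfreq, hNT⟩ := hmain (fun j => serZ (j + 2) (Nat.le_add_left 2 _)) linInd_Z
    A hA M (fun t => 𝓕 t ∪ Set.range (epN R)) (fun t => (hF t).union (Set.countable_range _))
    (by
      rintro t f (hf | ⟨P, rfl⟩)
      · exact (hF' t f hf).1
      · exact epN_analytic R P _)
    (by
      rintro t f (hf | ⟨P, rfl⟩)
      · exact (hF' t f hf).2
      · intro a
        rw [epN_real, Complex.ofReal_im]) R hR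
  have hEp : ∀ p ∈ E, p.Prime := fun p hp => hAp p (hEA p hp).1
  have hz : ∀ j, Real.exp (z j) = zetaE E (j + 2) := by
    intro j
    have h1 := tendsto_nhds_unique (hl j) (limit_Z hEp (Nat.le_add_left 2 j))
    rw [h1]
    exact (euler_exp hEp (Nat.le_add_left 2 j)).symm
  have hz' : ∀ j, Real.log (zetaE E (j + 2)) = z j := by
    intro j
    rw [← hz, Real.log_exp]
  have hP : ∀ P : MvPolynomial ℕ R, (∀ c, P ≠ MvPolynomial.C c) → ∀ b : ℕ, 2 ≤ b →
      Freq b (ev R (fun j : ℕ => zetaE E (j + 2)) P) := by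
    intro P hP b hb
    obtain ⟨t, Q, hQ⟩ := exists_fin R fun _ : Fin 1 => P
    have h1 := hfreq t (epN R (Q 0)) (Or.inr ⟨_, rfl⟩) (fun h => by
      obtain ⟨c, hc⟩ := epN_const R _ h
      apply hP c
      rw [← hQ 0, hc]
      exact MvPolynomial.rename_C _ _) b hb
    have h2 : epN R (Q 0) (rp fun i : Fin t => z i) =
        ((ev R (fun j : ℕ => zetaE E (j + 2)) P : ℝ) : ℂ) := by
      rw [epN_real]
      congr 1
      rw [← ev_eq_aeval, ← hQ 0, MvPolynomial.aeval_rename]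
      congr 2
      funext i
      simp only [Function.comp]
      rw [hz]
    rw [h2, Complex.ofReal_re] at h1
    exact h1
  refine ⟨E, fun p hp => (hEA p hp).1, fun p hp => (hEA p hp).2.1, hEK, algInd_of_freq R _ hP,
    fun n P hP' b hb => jn_of_nt b _ (nt_of_poly R _ hP P hP' b hb), ?_⟩
  intro t n f hf hnc b hb
  apply jn_of_nt
  have h1 := hNT t n f (fun j => Or.inl (hf j)) hnc b hb
  have h2 : (fun i : Fin t => ((Real.log (zetaE E ((i : ℕ) + 2)) : ℝ) : ℂ)) = rp fun i : Fin t => z i := by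
    funext i
    unfold rp
    rw [hz']
  rw [h2]
  exact h1

end Pool.Agent.Results.MP_48b3e2_nt.FewEulerFactors
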