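import Pool.Agent.H410.FM.Main

/-!
# The sum of the reciprocals of the cubes of the Fibonacci numbers: linear independence

The Fibonacci analogue of the theorem of Apery, more generally for the Lucas sequences
`u (n+2) = a u (n+1) - ε u n`, `ε = ±1`, with real characteristic roots, their companions `v`, and
all their subsequences `u_k, u_{2k}, u_{3k}, …`. Fibonacci numbers: `a = 1`, `ε = -1`. The number
`∑ 1/u_{kn}^3` is irrational, and even `1, ∑ ε^{kn}/u_{kn}, ∑ ε^{kn} v_{kn}/u_{kn}^2, ∑ 1/u_{kn}^3`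
are linearly independent over `ℚ`; a linear form with integral coefficients, not all `0`, of absolute
value at most `H`, is at least `exp(-C (log H)^3)` in absolute value.

Outline of the proof for `k = 1` (the files `Stm.lean` in `Pool/Agent/H410/FM`, `Pool/Agent/H410/FL`
and `Pool/Agent/H410/FC` have every step). Let `α > 1` be the root, `p = ε α²`, `x = -δ α` (here
`δ = ε`), `W` a polynomial of degree at most `2` which corresponds to a linear form `S` in the three
numbers, `c_m = W(m)/(1 + x p^m)` for all integers `m`, and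
`a(K,J) = ∑_{e ≥ 1} p^{-K e} c_{e+J}`, an element of `ℚ(α) + ℚ(α) S`. The determinant of `a(K,J)`,
`1 ≤ K ≤ 2n+1`, `-n ≤ J ≤ n`, is small (interpolation at triple zeros). If `S` is extremely close to
an integer `s`, replace `S` by `s` in the entries: the new determinant and its conjugate are both
small (the conjugate of `a(K,J)` is `p^K a(K,-2-J)`), the denominators are products of cyclotomic
values, and it does not vanish for some `n` of size `C log H` (exact pole order at a prime of `ℚ(α)`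
at which `p` has order `n+1`, Bertrand's postulate).
-/

namespace Pool.Agent.Results.MP_48b3e2_nt.FibonacciCubes

theorem result :
    ∀ a ε : ℤ, (ε = -1 ∧ 1 ≤ a) ∨ (ε = 1 ∧ 3 ≤ a) →
      ∀ u v : ℕ → ℤ, u 0 = 0 → u 1 = 1 → (∀ n, u (n + 2) = a * u (n + 1) - ε * u n) →
        v 0 = 2 → v 1 = a → (∀ n, v (n + 2) = a * v (n + 1) - ε * v n) →
        ∀ k : ℕ, 1 ≤ k → ∃ C : ℝ, 0 < C ∧ ∀ (H : ℝ) (b₀ b₁ b₂ b₃ : ℤ), 2 ≤ H →
          |(b₀ : ℝ)| ≤ H → |(b₁ : ℝ)| ≤ H → |(b₂ : ℝ)| ≤ H → |(b₃ : ℝ)| ≤ H →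
          (b₀ ≠ 0 ∨ b₁ ≠ 0 ∨ b₂ ≠ 0 ∨ b₃ ≠ 0) →
          Real.exp (-(C * Real.log H ^ 3)) ≤
            |b₀ + b₁ * (∑' n : ℕ, (ε : ℝ) ^ (k * (n + 1)) / (u (k * (n + 1)) : ℝ)) +
              b₂ * (∑' n : ℕ, (ε : ℝ) ^ (k * (n + 1)) * (v (k * (n + 1)) : ℝ) /
                (u (k * (n + 1)) : ℝ) ^ 2) +
              b₃ * (∑' n : ℕ, 1 / (u (k * (n + 1)) : ℝ) ^ 3)| := by
  intro a ε h u v hu0 hu1 hu2 hv0 hv1 hv2 k hk
  have hu : ∀ n, u n = Pool.Agent.H410.FC.U a ε n := by
    intro n
    induction n using Nat.strong_induction_on with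
    | _ n ih =>
      match n with
      | 0 => rw [hu0]; rfl
      | 1 => rw [hu1]; rfl
      | (n + 2) =>
        rw [hu2, ih n (by omega), ih (n + 1) (by omega)]
        rfl
  have hv : ∀ n, v n = Pool.Agent.H410.FL.V a ε n := by
    intro n
    induction n using Nat.strong_induction_on with
    | _ n ih =>
      match n with
      | 0 => rw [hv0]; rfl
      | 1 => rw [hv1]; rfl
      | (n + 2) =>
        rw [hv2, ih n (by omega), ih (n + 1) (by omega)]
        rfl
  have he : ε ^ k = 1 ∨ ε ^ k = -1 := by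
    rcases h with ⟨rfl, -⟩ | ⟨rfl, -⟩
    · exact neg_one_pow_eq_or ℤ k
    · left
      exact one_pow k
  have hs : Pool.Agent.H410.FL.Sg (ε ^ k) (ε ^ k) := ⟨he, fun h1 => h1⟩
  obtain ⟨C, hC, h1⟩ := Pool.Agent.H410.FM.main a ε h k hk (ε ^ k) hs
  refine ⟨C, hC, fun H b₀ b₁ b₂ b₃ hH h0 h1' h2 h3 hne => ?_⟩
  have key := h1 H b₀ ![b₁, b₂, b₃] hH h0 (by
    intro i
    fin_cases i
    · exact h1'
    · exact h2
    · exact h3) (by
    rcases hne with hn | hn | hn | hn
    · exact Or.inl hn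
    · exact Or.inr fun e => hn (congrFun e 0)
    · exact Or.inr fun e => hn (congrFun e 1)
    · exact Or.inr fun e => hn (congrFun e 2))
  have hsq : ((ε ^ k : ℤ) : ℝ) * (ε : ℝ) ^ k = 1 := by
    have : (ε ^ k : ℤ) * ε ^ k = 1 := by
      rcases he with h2 | h2 <;> rw [h2] <;> norm_num
    exact_mod_cast this
  rw [hsq] at key
  simp only [one_pow] at key
  simp only [hu, hv, pow_mul]
  push_cast at key
  exact key

end Pool.Agent.Results.MP_48b3e2_nt.FibonacciCubes
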